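import Pool.Agent.Helper99.DF.St

/-!
# Project DF (MP_d49380_lc): module SND, soundness of the certificates
-/

set_option autoImplicit false

namespace Pool.Agent.Helper6.DF

open Pool.Agent.Helper99.DF

/-- The region holds at the start. -/
private theorem rg_start (l : List ℤ) (D e0 N : ℕ) (Zs lo hi : List ℕ) (ents : List Ent)
    (hS : okS l) (hC : okC l Zs ents) (hZ : okZ l D e0 Zs) (hY : okY l D lo hi ents)
    (hR : okR l D e0 N Zs ents) : Rg l.length D e0 N Zs lo hi ents (sq l) := by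
  refine ⟨hS.1, fun k hk => sq_ge l k hk, ?_, ?_, ?_, hZ, hY, ?_⟩
  · intro k
    by_cases hk : k < l.length
    · exact (hS.2 k (List.mem_range.2 hk)).1
    · rw [sq_ge l k (by omega)]
  · intro k hk0
    by_cases hk : k < l.length
    · exact (hS.2 k (List.mem_range.2 hk)).2 hk0
    · rw [sq_ge l (k + 1) (by omega), mul_zero]
  · intro k
    by_cases hk : k < l.length
    · exact hC k (List.mem_range.2 hk)
    · right; right
      rw [sq_ge l (k + 1) (by omega), mul_zero]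
  · intro en hen ce hce
    exact ((hR en hen).2 ce hce).2.2

/-- The region is preserved. -/
private theorem rg_step (h1 : StSA) (h2 : StSO) (h3 : StSM) (h4 : StSH)
    (n D e0 N Cc Mg : ℕ) (Zs lo hi lo2 hi2 : List ℕ) (ents : List Ent) (b : ℕ → ℤ)
    (hB : okB n D e0 Cc Zs lo hi ents) (hO : okO D lo hi lo2 hi2 ents)
    (hM : okM D e0 N Mg Zs lo hi lo2 hi2 ents) (hD : okD D e0 N Cc Mg Zs)
    (hex : ∀ en ∈ ents, (∀ k ∈ Zs, ex en.2.1 k ≤ N) ∧ ∀ ce ∈ en.2.2,
      (∀ k ∈ Zs, ex ce.2 k ≤ N) ∧ ex ce.2 en.1 ≤ N)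
    (hPT : ∀ en ∈ ents, PT (Zs ++ [en.1]) N en.2.2 (T b) = 0)
    (hb : Rg n D e0 N Zs lo hi ents b) : Rg n D e0 N Zs lo hi ents (T b) := by
  obtain ⟨hsign, -⟩ := h1 n D e0 Cc N Zs lo hi ents b hB hb
  obtain ⟨hzs, hout⟩ := h2 n D e0 Cc Mg N Zs lo hi lo2 hi2 ents b hB hO hD hb
  have hcase : ∀ k, b k = 0 ∨ 0 < b k := fun k => (hb.nn k).eq_or_lt.imp (fun h => h.symm) id
  have hnn : ∀ k, 0 ≤ T b k := by
    intro k
    rcases hcase k with h | h
    · rw [(hsign k).2 h]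
    · exact ((hsign k).1 h).le
  have hprod0 : ∀ k, b (k - 1) * b (k + 1) = 0 → T b (k - 1) * T b (k + 1) = 0 := by
    intro k hk
    rcases mul_eq_zero.1 hk with h | h
    · rw [(hsign _).2 h, zero_mul]
    · rw [(hsign _).2 h, mul_zero]
  have hpos : ∀ k, 0 < b (k - 1) * b (k + 1) → 0 < T b k ∧ 0 < T b (k - 1) * T b (k + 1) := by
    intro k hk
    constructor
    · rcases hcase k with h | h
      · rw [hb.zz k h] at hk
        exact absurd hk (lt_irrefl 0)
      · exact (hsign k).1 h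
    · rcases hcase (k - 1) with h | h
      · rw [h, zero_mul] at hk
        exact absurd hk (lt_irrefl 0)
      · rcases hcase (k + 1) with h' | h'
        · rw [h', mul_zero] at hk
          exact absurd hk (lt_irrefl 0)
        · exact mul_pos ((hsign _).1 h) ((hsign _).1 h')
  have hmon : ∀ en ∈ ents, ∀ ce ∈ en.2.2, (∀ k ∈ Zs, ex ce.2 k = ex en.2.1 k) ∨
      (D : ℤ) * mon Zs N ce.2 (T b) ≤ e0 * mon Zs N en.2.1 (T b) := by
    intro en hen ce hce
    rcases hb.hr en hen ce hce with h | h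
    · exact Or.inl h
    · right
      exact h3 n D e0 Cc Mg N Zs lo hi ents b hB hD hb ce.2 en.2.1
        (fun k hk => ⟨((hex en hen).2 ce hce).1 k hk, (hex en hen).1 k hk⟩) h
  have hZpos : ∀ k ∈ Zs, 0 < T b k ∧ 0 < T b (k - 1) * T b (k + 1) :=
    fun k hk => hpos k (hb.hz k hk).2.1
  refine ⟨(hsign 0).2 hb.z0, fun k hk => (hsign k).2 (hb.out k hk), hnn, ?_, ?_, ?_, ?_, hmon⟩
  · intro k hk
    rcases hcase k with h | h
    · exact hprod0 k (hb.zz k h)
    · have := (hsign k).1 h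
      rw [hk] at this
      exact absurd this (lt_irrefl 0)
  · intro k
    rcases hb.cl k with h | h | h
    · exact Or.inl h
    · exact Or.inr (Or.inl h)
    · exact Or.inr (Or.inr (hprod0 k h))
  · intro k hk
    exact ⟨(hb.hz k hk).1, (hZpos k hk).2, hzs k hk⟩
  · intro en hen
    have hp := hpos en.1 (hb.hy en hen).2.1
    have hin := h4 D e0 N Mg Zs lo hi lo2 hi2 ents (T b) hD.1 hD.2.1 hM en hen (hO en hen).2.2
      hZpos hp.1 hp.2 (hex en hen).1
      (fun ce hce => ⟨((hex en hen).2 ce hce).1, ((hex en hen).2 ce hce).2, hmon en hen ce hce⟩)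
      (hPT en hen) (hout en hen).1 (hout en hen).2
    exact ⟨(hb.hy en hen).1, hp.2, hin.1, hin.2⟩

theorem hSND (h1 : StSA) (h2 : StSO) (h3 : StSM) (h4 : StSH) (h5 : StST) : StSND := by
  intro l c hc
  unfold chk at hc
  obtain ⟨hS, hC, hZ, hY, hB, hO, hM, hD, hR, hP, hI⟩ := hc
  have hex : ∀ en ∈ c.2.2.1, (∀ k ∈ c.2.1.1, ex en.2.1 k ≤ c.1.1.2.2.1) ∧ ∀ ce ∈ en.2.2,
      (∀ k ∈ c.2.1.1, ex ce.2 k ≤ c.1.1.2.2.1) ∧ ex ce.2 en.1 ≤ c.1.1.2.2.1 := by
    intro en hen
    refine ⟨(hR en hen).1, fun ce hce => ?_⟩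
    have := (hR en hen).2 ce hce
    exact ⟨this.1, this.2.1⟩
  have hPT := h5 l _ _ _ _ _ _ _ hS.1 (fun en hen ce hce => (hex en hen).2 ce hce) hI hP
  have key : ∀ t, Rg l.length c.1.1.1 c.1.1.2.1 c.1.1.2.2.1 c.2.1.1 c.2.1.2.1 c.2.1.2.2.1 c.2.2.1
      (T^[t] (sq l)) := by
    intro t
    induction t with
    | zero => exact rg_start l _ _ _ _ _ _ _ hS hC hZ hY hR
    | succ t ih =>
      rw [Function.iterate_succ_apply']
      refine rg_step h1 h2 h3 h4 _ _ _ _ _ _ _ _ _ _ _ _ _ hB hO hM hD hex ?_ ih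
      intro en hen
      have := hPT (t + 1) en hen
      rwa [Function.iterate_succ_apply'] at this
  intro t k
  exact (key t).nn k

end Pool.Agent.Helper6.DF
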